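import Pool.Agent.H98.SLN.Targets

/-!
# LCM: moments of `lc` (MP_65efe8_pr)
-/

set_option autoImplicit false

open MeasureTheory ProbabilityTheory Filter Topology
open scoped ENNReal
open Pool.Agent.H95 Pool.Agent.H95.Cop
open Pool.Agent.H98.SLN

namespace Pool.Agent.H25.SLN

theorem meas_H (a b : ℕ) : Measurable (fun x : ℕ → ℝ => H x a b) := by
  unfold H
  exact Finset.measurable_sum _ fun i _ => measurable_pi_apply i

theorem meas_lc (a b : ℕ) : Measurable (fun x : ℕ → ℝ => lc (H x a b)) := by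
  unfold lc
  exact Real.measurable_log.comp (Real.measurable_cosh.comp ((meas_H a b).div_const 2))

theorem pf_LCM (hLCB : T_LCB) (hFOU : T_FOU) : T_LCM := by
  intro ν hν h4 q j hj hjq
  obtain ⟨i4, i2, l2, -, u4⟩ := hFOU ν h4 j
  obtain ⟨m1, hm1⟩ : ∃ m1 : ℝ, m1 = ∫ z, z ∂ν := ⟨_, rfl⟩
  obtain ⟨m2, hm2⟩ : ∃ m2 : ℝ, m2 = ∫ z, z ^ 2 ∂ν := ⟨_, rfl⟩
  obtain ⟨m4, hm4⟩ : ∃ m4 : ℝ, m4 = ∫ z, z ^ 4 ∂ν := ⟨_, rfl⟩
  have hj1 : (1 : ℝ) ≤ j := by exact_mod_cast hj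
  have hq1 : (j : ℝ) ≤ q := by exact_mod_cast hjq
  have hB : ∫ x : ℕ → ℝ, H x 0 j ^ 4 ∂(iid ν) ≤ B4 ν q * j := by
    refine u4.trans ?_
    unfold B4
    rw [← hm1, ← hm2, ← hm4]
    have e1 : 24 * (j : ℝ) ^ 2 * m2 ^ 2 ≤ 24 * q * m2 ^ 2 * j := by
      have : (j : ℝ) ^ 2 ≤ q * j := by nlinarith
      have h0 : 0 ≤ 24 * m2 ^ 2 := by positivity
      nlinarith
    have e2 : 8 * (j : ℝ) ^ 4 * m1 ^ 4 ≤ 8 * (q : ℝ) ^ 3 * m1 ^ 4 * j := by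
      have h3 : (j : ℝ) ^ 3 ≤ (q : ℝ) ^ 3 := pow_le_pow_left₀ (by linarith) hq1 3
      have : (j : ℝ) ^ 4 ≤ (q : ℝ) ^ 3 * j := by
        have : (j : ℝ) ^ 4 = (j : ℝ) ^ 3 * j := by ring
        rw [this]
        exact mul_le_mul_of_nonneg_right h3 (by linarith)
      have h0 : 0 ≤ 8 * m1 ^ 4 := by positivity
      nlinarith
    nlinarith
  have hsq : ∀ x : ℕ → ℝ, lc (H x 0 j) ^ 2 ≤ H x 0 j ^ 4 / 64 := by
    intro x
    obtain ⟨a1, a2, -, -⟩ := hLCB (H x 0 j)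
    calc lc (H x 0 j) ^ 2 ≤ (H x 0 j ^ 2 / 8) ^ 2 := pow_le_pow_left₀ a1 a2 2
      _ = H x 0 j ^ 4 / 64 := by ring
  have iL : Integrable (fun x : ℕ → ℝ => lc (H x 0 j)) (iid ν) := by
    refine Integrable.mono' (i2.div_const 8) (meas_lc 0 j).aestronglyMeasurable ?_
    refine Filter.Eventually.of_forall fun x => ?_
    obtain ⟨a1, a2, -, -⟩ := hLCB (H x 0 j)
    rw [Real.norm_of_nonneg a1]
    exact a2
  have iL2 : Integrable (fun x : ℕ → ℝ => lc (H x 0 j) ^ 2) (iid ν) := by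
    refine Integrable.mono' (i4.div_const 64) ((meas_lc 0 j).pow_const 2).aestronglyMeasurable ?_
    refine Filter.Eventually.of_forall fun x => ?_
    rw [Real.norm_of_nonneg (by positivity)]
    exact hsq x
  refine ⟨iL, iL2, ?_, ?_⟩
  · have h1 : ∫ x : ℕ → ℝ, (H x 0 j ^ 2 / 8 - H x 0 j ^ 4 / 192) ∂(iid ν) ≤
        ∫ x : ℕ → ℝ, lc (H x 0 j) ∂(iid ν) :=
      integral_mono ((i2.div_const 8).sub (i4.div_const 192)) iL
        (fun x => (hLCB (H x 0 j)).2.2.1)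
    have h2 : ∫ x : ℕ → ℝ, (H x 0 j ^ 2 / 8 - H x 0 j ^ 4 / 192) ∂(iid ν) =
        (∫ x : ℕ → ℝ, H x 0 j ^ 2 ∂(iid ν)) / 8 - (∫ x : ℕ → ℝ, H x 0 j ^ 4 ∂(iid ν)) / 192 := by
      rw [integral_sub (i2.div_const 8) (i4.div_const 192), integral_div, integral_div]
    rw [h2] at h1
    refine le_trans ?_ h1
    nlinarith
  · obtain ⟨m, hm⟩ : ∃ m : ℝ, m = ∫ x' : ℕ → ℝ, lc (H x' 0 j) ∂(iid ν) := ⟨_, rfl⟩
    rw [← hm]
    have h1 : ∫ x : ℕ → ℝ, (lc (H x 0 j) - m) ^ 2 ∂(iid ν) =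
        (∫ x : ℕ → ℝ, lc (H x 0 j) ^ 2 ∂(iid ν)) - m ^ 2 := by
      have e1 : ∀ x : ℕ → ℝ, (lc (H x 0 j) - m) ^ 2 =
          (lc (H x 0 j) ^ 2 - 2 * m * lc (H x 0 j)) + m ^ 2 := fun x => by ring
      have i3 : Integrable (fun x : ℕ → ℝ => lc (H x 0 j) ^ 2 - 2 * m * lc (H x 0 j)) (iid ν) :=
        iL2.sub (iL.const_mul (2 * m))
      have e2 : ∫ x : ℕ → ℝ, (lc (H x 0 j) - m) ^ 2 ∂(iid ν) =
          ∫ x : ℕ → ℝ, ((lc (H x 0 j) ^ 2 - 2 * m * lc (H x 0 j)) + m ^ 2) ∂(iid ν) :=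
        integral_congr_ae (Filter.Eventually.of_forall e1)
      have e3 : ∫ x : ℕ → ℝ, (lc (H x 0 j) ^ 2 - 2 * m * lc (H x 0 j)) ∂(iid ν) =
          (∫ x : ℕ → ℝ, lc (H x 0 j) ^ 2 ∂(iid ν)) - 2 * m * m := by
        rw [integral_sub iL2 (iL.const_mul (2 * m)), integral_const_mul, ← hm]
      rw [e2, integral_add i3 (integrable_const _), e3, integral_const]
      simp
      ring
    have h2 : ∫ x : ℕ → ℝ, lc (H x 0 j) ^ 2 ∂(iid ν) ≤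
        (∫ x : ℕ → ℝ, H x 0 j ^ 4 ∂(iid ν)) / 64 := by
      rw [← integral_div]
      exact integral_mono iL2 (i4.div_const 64) hsq
    rw [h1]
    nlinarith [sq_nonneg m]

end Pool.Agent.H25.SLN
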