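import Pool.Agent.H98.SLN.Targets

/-!
# UMM: the conditions of the upper half (MP_65efe8_pr)
-/

set_option autoImplicit false

open MeasureTheory ProbabilityTheory Filter Topology
open scoped ENNReal
open Pool.Agent.H95 Pool.Agent.H95.Cop
open Pool.Agent.H55.CG (Mo)
open Pool.Agent.H98.SLN

namespace Pool.Agent.H25.SLN

theorem umm_exp (μ : Measure ℝ) [IsProbabilityMeasure μ]
    (h : ∀ t : ℝ, Integrable (fun z => Real.exp (t * z)) μ) (lam m t : ℝ) :
    Integrable (fun z => Real.exp (t * z)) (μ.map (fun z => -2 * lam * (z + m * lam))) := by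
  have hm : Measurable (fun z : ℝ => -2 * lam * (z + m * lam)) := by fun_prop
  rw [integrable_map_measure (by fun_prop) hm.aemeasurable]
  have h1 := (h (-2 * lam * t)).mul_const (Real.exp (-2 * lam * t * (m * lam)))
  refine h1.congr (Filter.Eventually.of_forall fun z => ?_)
  simp only [Function.comp_apply]
  rw [← Real.exp_add]
  congr 1
  ring

theorem umm_root {a b : ℝ} {k : ℕ} (hk : 1 ≤ k) (hb : 0 ≤ b) (h : a ^ k ≤ b ^ k) :
    a ≤ b := le_of_pow_le_pow_left₀ (by omega) hb h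

theorem pf_UMM (hMOQ : T_MOQ) : T_UMM := by
  refine ⟨1 / 280 ^ 4, by positivity, fun μ hμ hexp hm0 hv1 => ?_⟩
  obtain ⟨C, l0, hC, hl0, hM⟩ := hMOQ μ hexp hm0 hv1
  refine ⟨min l0 (1 / C ^ 2), by positivity, fun lam δ α hlam hlam0 hδ hδ3 hα1 hα2 hlδ => ?_⟩
  have hlam1 : lam < l0 := lt_of_lt_of_le hlam0 (min_le_left _ _)
  have hlam2 : lam ≤ 1 / C ^ 2 := (lt_of_lt_of_le hlam0 (min_le_right _ _)).le
  -- the fourth root
  obtain ⟨y, hy⟩ : ∃ y : ℝ, y = δ ^ (1 / 4 : ℝ) := ⟨_, rfl⟩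
  have hy0 : 0 < y := by rw [hy]; exact Real.rpow_pos_of_pos hδ _
  have hy4 : y ^ 4 = δ := by
    rw [hy, ← Real.rpow_natCast, ← Real.rpow_mul hδ.le]
    norm_num
  have hy1 : y < 1 / 280 := by
    have h1 : y ^ 4 < (1 / 280) ^ 4 := by
      rw [hy4]
      refine lt_of_lt_of_le hδ3 ?_
      norm_num
    exact lt_of_pow_lt_pow_left₀ 4 (by norm_num) h1
  have hyδ : δ ≤ y / 280 ^ 3 := by
    have h2 : y ^ 3 ≤ (1 / 280) ^ 3 := pow_le_pow_left₀ hy0.le hy1.le 3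
    have h3 : δ = y * y ^ 3 := by rw [← hy4]; ring
    rw [h3]
    have h4 : y * y ^ 3 ≤ y * (1 / 280) ^ 3 := mul_le_mul_of_nonneg_left h2 hy0.le
    refine h4.trans (le_of_eq ?_)
    ring
  have hδs : δ ≤ 1 / 280 ^ 4 := hδ3.le
  -- the error
  have hCl : C * lam ≤ δ := by
    have h1 : Real.sqrt lam ≤ δ := by
      rw [← Real.sqrt_sq hδ.le]
      exact Real.sqrt_le_sqrt hlδ
    have h2 : Real.sqrt lam ≤ 1 / C := by
      have : (1 / C ^ 2 : ℝ) = (1 / C) ^ 2 := by rw [div_pow, one_pow]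
      rw [this] at hlam2
      calc Real.sqrt lam ≤ Real.sqrt ((1 / C) ^ 2) := Real.sqrt_le_sqrt hlam2
        _ = 1 / C := Real.sqrt_sq (by positivity)
    have h3 : lam = Real.sqrt lam * Real.sqrt lam := (Real.mul_self_sqrt hlam.le).symm
    have h4 : Real.sqrt lam * Real.sqrt lam ≤ 1 / C * δ :=
      mul_le_mul h2 h1 (Real.sqrt_nonneg _) (by positivity)
    calc C * lam = C * (Real.sqrt lam * Real.sqrt lam) := by rw [← h3]
      _ ≤ C * (1 / C * δ) := by gcongr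
      _ = δ := by field_simp
  have hCl0 : 0 ≤ C * lam := by positivity
  -- the parameters
  obtain ⟨x, hx⟩ : ∃ x : ℝ, x = 70 * y := ⟨_, rfl⟩
  have hx0 : 0 < x := by rw [hx]; positivity
  have hx1 : x ≤ 1 / 4 := by rw [hx]; linarith
  have hxδ : 66 * δ ≤ 3 / 16 * x := by
    rw [hx]
    have : y / 280 ^ 3 ≤ y / 1000 := by
      apply div_le_div_of_nonneg_left hy0.le (by norm_num) (by norm_num)
    linarith
  obtain ⟨m, hm⟩ : ∃ m : ℝ, m = 3 / 4 + x := ⟨_, rfl⟩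
  obtain ⟨g, hg⟩ : ∃ g : ℝ, g = 1 / (1 + α) := ⟨_, rfl⟩
  have hδ1 : δ ≤ 1 / 100 := hδs.trans (by norm_num)
  have hα0 : 0 < 1 + α := by linarith
  have hg1 : 1 / 2 ≤ g := by
    rw [hg]
    exact one_div_le_one_div_of_le hα0 (by linarith)
  have hg2 : g ≤ 1 / 2 + δ / 2 := by
    rw [hg, div_le_iff₀ hα0]
    nlinarith
  obtain ⟨θ, hθ⟩ : ∃ θ : ℝ, θ = g + x := ⟨_, rfl⟩
  have hθ0 : 1 / 2 ≤ θ := by rw [hθ]; linarith
  have hθ1 : θ ≤ 4 / 5 := by rw [hθ]; linarith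
  have htu : tu α δ = θ := by
    unfold tu
    rw [hθ, hg, hx, hy]
  have hmm : 3 / 4 + 70 * δ ^ (1 / 4 : ℝ) = m := by rw [hm, hx, hy]
  have hκ : 70 / 16 * δ ^ (1 / 4 : ℝ) = x / 16 := by rw [hx, ← hy]; ring
  rw [htu, hmm, hκ]
  have hmθ : m - θ = 3 / 4 - g := by rw [hm, hθ]; ring
  have hd1 : 1 / 5 ≤ m - θ := by rw [hmθ]; linarith
  have hd2 : m - θ ≤ 1 / 4 := by rw [hmθ]; linarith
  obtain ⟨hMo, -⟩ := hM lam m hlam hlam1 (by rw [hm]; linarith) (by rw [hm]; linarith)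
  obtain ⟨k, hk⟩ : ∃ k : ℕ, k = ⌈1 / lam ^ 2⌉₊ := ⟨_, rfl⟩
  rw [← hk] at hMo ⊢
  have hk1 : 1 ≤ k := by
    rw [hk]
    exact Nat.one_le_iff_ne_zero.2 (Nat.ceil_pos.2 (by positivity)).ne'
  have hkr : (0 : ℝ) < k := by exact_mod_cast (by omega : 0 < k)
  obtain ⟨ν, hν⟩ : ∃ ν : Measure ℝ, ν = μ.map (fun z => -2 * lam * (z + m * lam)) := ⟨_, rfl⟩
  have hνp : IsProbabilityMeasure ν := by
    rw [hν]
    exact Measure.isProbabilityMeasure_map (by fun_prop)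
  have hνe : ∀ t : ℝ, Integrable (fun z => Real.exp (t * z)) ν := by
    intro t
    rw [hν]
    exact umm_exp μ hexp lam m t
  rw [← hν] at hMo ⊢
  have hMn : ∀ u : ℝ, 0 ≤ Mo ν u := fun u => integral_nonneg fun z => (Real.exp_pos _).le
  obtain ⟨A, hA⟩ : ∃ A : ℝ, A = (1 + θ ^ 2) / 2 - θ * m := ⟨_, rfl⟩
  have hρk : ∀ s : ℝ, (Real.exp ((A + C * lam) / k) * Real.exp (s / k)) ^ k =
      Real.exp (A + C * lam + s) := by
    intro s
    rw [← Real.exp_add, ← Real.exp_nat_mul]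
    congr 1
    field_simp
  refine ⟨Real.exp ((A + C * lam) / k), (m - θ) / k, ?_⟩
  refine ⟨hνp, hνe, by linarith, by linarith, Real.exp_pos _, by positivity, ?_, by positivity,
    ?_, ?_, ?_, ?_⟩
  · rw [div_mul_cancel₀ _ hkr.ne']
    linarith
  · refine umm_root hk1 (by positivity) ?_
    rw [hρk]
    refine (hMo (-(1 - θ) / 2) (by linarith) (by linarith)).2.trans (Real.exp_le_exp.2 ?_)
    rw [hA]
    exact le_of_eq (by ring)
  · refine umm_root hk1 (by positivity) ?_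
    rw [← neg_div, hρk]
    refine (hMo ((1 + θ) / 2) (by linarith) (by linarith)).2.trans (Real.exp_le_exp.2 ?_)
    rw [hA]
    exact le_of_eq (by ring)
  · refine umm_root hk1 (by norm_num) ?_
    rw [one_pow]
    refine (hMo θ (by linarith) (by linarith)).2.trans ?_
    rw [Real.exp_le_one_iff]
    have e0 : 1 / 2 * (1 / 5) ≤ θ * (m - θ) :=
      mul_le_mul hθ0 hd1 (by norm_num) (by linarith)
    have e1 : 2 * θ ^ 2 - 2 * θ * m + C * lam = -2 * (θ * (m - θ)) + C * lam := by ring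
    rw [e1]
    linarith
  · have e1 : Real.exp ((A + C * lam) / k) ^ k = Real.exp (A + C * lam) := by
      rw [← Real.exp_nat_mul]
      congr 1
      field_simp
    rw [e1, ← Real.exp_add, ← Real.exp_mul]
    have e2 : (Mo ν (θ / 2) ^ k) ^ (1 - θ) ≤
        Real.exp ((2 * (θ / 2) ^ 2 - 2 * (θ / 2) * m + C * lam) * (1 - θ)) := by
      rw [Real.exp_mul]
      exact Real.rpow_le_rpow (pow_nonneg (hMn _) _)
        (hMo (θ / 2) (by linarith) (by linarith)).2 (by linarith)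
    refine (mul_le_mul_of_nonneg_left e2 (Real.exp_pos _).le).trans ?_
    rw [← Real.exp_add]
    refine Real.exp_le_exp.2 ?_
    have e3 : (A + C * lam + 64 * δ) * θ +
        (2 * (θ / 2) ^ 2 - 2 * (θ / 2) * m + C * lam) * (1 - θ) =
        θ * (1 / 2 + θ / 2 - m) + 64 * (δ * θ) + C * lam := by
      rw [hA]
      ring
    rw [e3]
    have e4 : 1 / 2 + θ / 2 - m ≤ δ / 4 - x / 2 := by rw [hθ, hm]; linarith
    have e5 : δ / 4 - x / 2 ≤ 0 := by linarith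
    have e6 : θ * (1 / 2 + θ / 2 - m) ≤ 1 / 2 * (δ / 4 - x / 2) := by
      calc θ * (1 / 2 + θ / 2 - m) ≤ θ * (δ / 4 - x / 2) :=
            mul_le_mul_of_nonneg_left e4 (by linarith)
        _ ≤ 1 / 2 * (δ / 4 - x / 2) := by nlinarith
    have e7 : δ * θ ≤ δ := by nlinarith
    linarith

end Pool.Agent.H25.SLN
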